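import Mathlib

set_option autoImplicit false

namespace Pool.Agent.Results.MP_93e4b7_co.Counter

open Matrix

/-- The group `F_2^r`. -/
abbrev V (r : ℕ) := Fin r → ZMod 2

/-- The Laplacian of the Cayley multigraph with `μ u` edges between `w` and `w + u` (`u ≠ 0`). -/
def lap {r : ℕ} (μ : V r → ℕ) : Matrix (V r) (V r) ℤ := fun u v =>
  if u = v then ∑ w ∈ {w | w ≠ 0}, (μ w : ℤ) else -μ (u + v)

/-- The cokernel of the Laplacian. -/
abbrev coker {r : ℕ} (μ : V r → ℕ) := (V r → ℤ) ⧸ LinearMap.range (lap μ).mulVecLin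

/-- The sandpile group: the torsion part of the cokernel of the Laplacian. -/
abbrev K {r : ℕ} (μ : V r → ℕ) := Submodule.torsion ℤ (coker μ)

/-- The support of `μ` spans. -/
def Gen {r : ℕ} (μ : V r → ℕ) : Prop := Submodule.span (ZMod 2) {u | u ≠ 0 ∧ μ u ≠ 0} = ⊤

/-- The degree of the Cayley graph. -/
def deg {r : ℕ} (μ : V r → ℕ) : ℕ := ∑ w ∈ {w | w ≠ 0}, μ w

/-- Isomorphic sandpile groups. -/
def Iso {r : ℕ} (μ ν : V r → ℕ) : Prop := Nonempty (K μ ≃+ K ν)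

/-- `GL`-equivalence. -/
def GLEq {r : ℕ} (μ ν : V r → ℕ) : Prop := ∃ T : V r ≃ₗ[ZMod 2] V r, ∀ u ≠ 0, ν (T u) = μ u

def ix (u : V 2) : Fin 4 := ⟨(u 0).val + 2 * (u 1).val, by
  have := (u 0).val_lt; have := (u 1).val_lt; omega⟩

def M (A : Matrix (Fin 4) (Fin 4) ℤ) : Matrix (V 2) (V 2) ℤ := A.submatrix ix ix
def U := M !![1, 0, 0, 0; -29200, 1, 5966, -5966; 14504, 0, -2982, 2983; 14696, 0, -2983, 2984]
def U' := M !![1, 0, 0, 0; -1116272, 1, -5966, 5966; 558232, 0, 2984, -2983; 558040, 0, 2983, -2982]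
def W := M !![-7519, -2, 4935, 2587; -35202, -13, 23141, 12075; -9046, 0, 5913, 3134; 0, 0, 0, 1]
def W' := M !![-76869, 11826, 17873, 47171; -1184060, 182163, 275309, 726589;
  -117598, 18092, 27343, 72164; 0, 0, 0, 1]
def μ₀ (u : V 2) : ℕ := ![0, 1, 20, 25] (ix u)
def ν₀ (u : V 2) : ℕ := ![0, 7, 11, 28] (ix u)

theorem result : ∃ μ ν : V 2 → ℕ, Gen μ ∧ Gen ν ∧ deg μ = deg ν ∧ Iso μ ν ∧ ¬ GLEq μ ν := by
  have sp : ∀ μ : V 2 → ℕ, (∀ u ≠ 0, 0 < μ u) →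
      Submodule.span (ZMod 2) {u | u ≠ 0 ∧ μ u ≠ 0} = ⊤ := fun μ h => eq_top_iff.2 fun u _ =>
    (em (u = 0)).elim (fun e => by rw [e]; exact Submodule.zero_mem _) fun e =>
      Submodule.subset_span ⟨e, (h u e).ne'⟩
  have a1 : U * lap μ₀ = lap ν₀ * W := by decide +kernel
  have a2 : U' * lap ν₀ = lap μ₀ * W' := by decide +kernel
  have a3 : U * U' = 1 := by decide +kernel
  have a4 : U' * U = 1 := by decide +kernel
  have b : ∀ {μ ν : V 2 → ℕ} {U W : Matrix (V 2) (V 2) ℤ}, U * lap μ = lap ν * W →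
      LinearMap.range (lap μ).mulVecLin ≤ (LinearMap.range (lap ν).mulVecLin).comap U.mulVecLin :=
    fun {_ _ _ W} h _ ⟨x, e⟩ => ⟨W *ᵥ x, by
      simp only [← e, mulVecLin_apply, mulVec_mulVec, h]⟩
  have c : ∀ {μ ν : V 2 → ℕ} {U U' : Matrix (V 2) (V 2) ℤ} h h', U * U' = 1 →
      (Submodule.mapQ _ (LinearMap.range (lap ν).mulVecLin) U.mulVecLin h).comp
      (Submodule.mapQ _ (LinearMap.range (lap μ).mulVecLin) U'.mulVecLin h') = .id :=
    fun h h' e => LinearMap.ext fun x => by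
      obtain ⟨x, rfl⟩ := Submodule.Quotient.mk_surjective _ x
      simp only [LinearMap.comp_apply, Submodule.mapQ_apply, mulVecLin_apply, mulVec_mulVec, e,
        one_mulVec, LinearMap.id_apply]
  let e : coker μ₀ ≃ₗ[ℤ] coker ν₀ := .ofLinearMap (Submodule.mapQ _ _ _ (b a1))
    (Submodule.mapQ _ _ _ (b a2)) (c _ _ a3) (c _ _ a4)
  refine ⟨μ₀, ν₀, sp _ (by decide), sp _ (by decide), by decide,
    ⟨(e.ofSubmodules _ _ ?_).toAddEquiv⟩, fun ⟨T, h⟩ => ?_⟩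
  · ext x
    simp only [Submodule.mem_map_equiv, Submodule.mem_torsion_iff]
    exact exists_congr fun a => by rw [Submonoid.smul_def, Submonoid.smul_def, ← map_smul,
      map_eq_zero_iff _ e.symm.injective]
  · exact absurd (h ![1, 0] (by decide)) ((by decide : ∀ u, ν₀ u ≠ μ₀ ![1, 0]) _)

end Pool.Agent.Results.MP_93e4b7_co.Counter
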